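import Pool.Agent.H88.BL.Targets

/-!
# Bernoulli convolutions near one, row CF: the characteristic function
-/

set_option autoImplicit false
open MeasureTheory ProbabilityTheory Filter Topology Set

namespace Pool.Agent.H11.BL

open Pool.Agent.H88.BL

theorem pf_CF : T_CF := by
  intro t h0 h1
  have hp := Pool.Agent.H91.BC.nu_prob h0 h1
  refine ⟨?_, ?_⟩
  · have h2 : Continuous (charFun (Pool.Agent.H91.BC.nu t)) := continuous_charFun
    exact h2.comp (continuous_const.mul continuous_id)
  · intro M y
    have h2 : Tendsto (fun n => ∏ i ∈ Finset.range n, (Real.cos (t ^ i * (Real.pi * y)) : ℂ)) atTop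
        (𝓝 (charFun (Pool.Agent.H91.BC.nu t) (Real.pi * y))) :=
      Pool.Agent.H91.BC.tendsto_prod_cos h0 h1 (Real.pi * y)
    refine le_of_tendsto h2.norm ?_
    filter_upwards [eventually_ge_atTop M] with n hn
    rw [norm_prod]
    have h3 : ∀ i : ℕ, ‖(Real.cos (t ^ i * (Real.pi * y)) : ℂ)‖ = |Real.cos (Real.pi * (y * t ^ i))| := by
      intro i
      rw [Complex.norm_real, Real.norm_eq_abs]
      congr 2
      ring
    simp only [h3]
    unfold gp
    exact Finset.prod_le_prod_of_subset_of_le_one (Finset.range_subset_range.2 hn)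
      (fun i _ => abs_nonneg _) (fun i _ _ => Real.abs_cos_le_one _)

end Pool.Agent.H11.BL
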