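import Pool.Agent.H93.BL.Targets

namespace Pool.Agent.H11.BL.M2
open MeasureTheory Set Filter Topology Pool.Agent.H93.BL

variable {ι : Type} (P : Polygon ι)

lemma cont_pos (i : ι) : Continuous fun z : ℝ × ℝ => P.pos (i, z) := by
  unfold Polygon.pos
  fun_prop

lemma cont_dir (i : ι) : Continuous fun z : ℝ × ℝ => P.dir (i, z) := by
  unfold Polygon.dir
  fun_prop

lemma isOpen_phase (i : ι) : IsOpen {z : ℝ × ℝ | P.Phase (i, z)} := by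
  have e : {z : ℝ × ℝ | P.Phase (i, z)} = {z : ℝ × ℝ | 0 < z.1} ∩ ({z : ℝ × ℝ | z.1 < P.len i} ∩
      ({z : ℝ × ℝ | -(Real.pi / 2) < z.2} ∩ {z : ℝ × ℝ | z.2 < Real.pi / 2})) := rfl
  rw [e]
  refine IsOpen.inter (isOpen_lt continuous_const continuous_fst) ?_
  refine IsOpen.inter (isOpen_lt continuous_fst continuous_const) ?_
  exact IsOpen.inter (isOpen_lt continuous_const continuous_snd)
    (isOpen_lt continuous_snd continuous_const)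

lemma open_fwd [Finite ι] (hG : T_G5b) (hB1 : T_B1) (hB4 : T_B4) (i j : ι) :
    IsOpen {z : ℝ × ℝ | ∃ z', P.Step (i, z) (j, z')} := by
  have key : {z : ℝ × ℝ | ∃ z', P.Step (i, z) (j, z')} =
      {z : ℝ × ℝ | P.Phase (i, z) ∧ ∃ t, P.Hit (P.pos (i, z)) (P.dir (i, z)) j t} := by
    ext z
    constructor
    · rintro ⟨z', hz'⟩
      obtain ⟨h1, -, -, t, ht, -⟩ := ((hB1 ι P (i, z) (j, z')).2.2).1 hz'
      exact ⟨h1, t, ht⟩
    · rintro ⟨h1, t, ht⟩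
      obtain ⟨z', hz', hj⟩ := hB4 ι P (i, z) j t h1 ht
      refine ⟨z'.2, ?_⟩
      rw [← hj]
      exact hz'
  rw [key, isOpen_iff_mem_nhds]
  rintro z ⟨h1, t, ht⟩
  obtain ⟨ε, hε, hh⟩ := hG ι P i (P.pos (i, z)) (P.dir (i, z)) j t (P.pos_mem h1)
    (by rw [P.ip_dir_n]; exact P.cos_pos_of_phase h1) ht
  have e1 : ∀ᶠ y in 𝓝 z, P.Phase (i, y) := (isOpen_phase P i).mem_nhds h1
  have e2 : ∀ᶠ y in 𝓝 z, dist (P.pos (i, y)) (P.pos (i, z)) < ε :=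
    (cont_pos P i).continuousAt.eventually (Metric.ball_mem_nhds _ hε)
  have e3 : ∀ᶠ y in 𝓝 z, dist (P.dir (i, y)) (P.dir (i, z)) < ε :=
    (cont_dir P i).continuousAt.eventually (Metric.ball_mem_nhds _ hε)
  filter_upwards [e1, e2, e3] with y hy1 hy2 hy3
  exact ⟨hy1, hh _ (P.pos_mem hy1) _ hy2 hy3⟩

theorem m2 : T_G5b → T_B1 → T_B2 → T_B3 → T_B4 → T_M2 := by
  intro hG hB1 _ hB3 hB4 ι _ P i j
  refine ⟨open_fwd P hG hB1 hB4 i j, ?_⟩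
  have key : {z' : ℝ × ℝ | ∃ z, P.Step (i, z) (j, z')} =
      (fun z : ℝ × ℝ => (z.1, -z.2)) ⁻¹' {z : ℝ × ℝ | ∃ z', P.Step (j, z) (i, z')} := by
    ext z
    constructor
    · rintro ⟨w, hw⟩
      exact ⟨(w.1, -w.2), (hB3 ι P (i, w) (j, z) (j, z)).2.2 hw⟩
    · rintro ⟨w, hw⟩
      refine ⟨(w.1, -w.2), ?_⟩
      have h := (hB3 ι P (j, (z.1, -z.2)) (i, w) (i, w)).2.2 hw
      simpa using h
  rw [key]
  exact (open_fwd P hG hB1 hB4 j i).preimage (by fun_prop)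

end Pool.Agent.H11.BL.M2
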