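import Pool.Agent.H93.BL.Targets

namespace Pool.Agent.H11.BL.M6
open MeasureTheory Set Pool.Agent.H93.BL

theorem m6 : T_M0 → T_M5 → T_B3 → T_M6 := by
  intro hM0 hM5 hB3 ι _ P
  have first : ∀ N : ι → Set (ℝ × ℝ), (∀ i, P.liouville i (N i) = 0) →
      ∀ i, P.liouville i {z | ∃ z', P.Step (i, z) z' ∧ z'.2 ∈ N z'.1} = 0 := by
    intro N hN i
    have h := hM5 ι P (fun i => toMeasurable (P.liouville i) (N i))
      (fun i => measurableSet_toMeasurable _ _)
    have h0 : ∑ i, P.liouville i (toMeasurable (P.liouville i) (N i)) = 0 := by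
      apply Finset.sum_eq_zero
      intro k _
      rw [measure_toMeasurable]
      exact hN k
    rw [h0] at h
    have h1 := (Finset.sum_eq_zero_iff.1 (le_antisymm h bot_le)) i (Finset.mem_univ i)
    refine measure_mono_null ?_ h1
    rintro z ⟨z', hz', hz''⟩
    exact ⟨z', hz', subset_toMeasurable _ _ hz''⟩
  intro N hN
  refine ⟨first N hN, ?_⟩
  intro i
  have hN' : ∀ k, P.liouville k {z | (z.1, -z.2) ∈ N k} = 0 := fun k =>
    (hM0 ι P k (N k)).2.1 (hN k)
  have h2 := first (fun k => {z | (z.1, -z.2) ∈ N k}) hN' i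
  have h3 := (hM0 ι P i _).2.1 h2
  refine measure_mono_null ?_ h3
  rintro z ⟨z', hz', hz''⟩
  refine ⟨(z'.1, z'.2.1, -z'.2.2), (hB3 ι P z' (i, z) (i, z)).2.2 hz', ?_⟩
  simpa using hz''

end Pool.Agent.H11.BL.M6
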